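import Pool.Agent.H55.BQ.Targets

/-!
# Biplanar drawings (MP_bacf0e_co), board `bpq_modules`, row DKD (helper42)

Deck transformations of the tree of half planes are bijective and respect the directions.
-/

set_option autoImplicit false

open Finset Pool.Agent.H55.BP Pool.Agent.H55.BQ

namespace Pool.Agent.H42.BPQ

theorem pf_DKD (hDKU : T_DKU) : T_DKD := by
  intro n T h
  obtain ⟨k, hk, hko⟩ := T.hom (h.h T.o) T.o
  have h1 : (fun x => k (h.h x)) = fun x => x :=
    hDKU T _ _ (fun i x => by simp only [h.hr, hk]) (fun i x => rfl) T.o hko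
  have h2 : (fun x => h.h (k x)) = fun x => x :=
    hDKU T _ _ (fun i x => by simp only [h.hr, hk]) (fun i x => rfl) (h.h T.o)
      (by show h.h (k (h.h T.o)) = h.h T.o; rw [hko])
  have hinj : Function.Injective h.h := fun x y hxy => by
    have e1 : k (h.h x) = x := congrFun h1 x
    have e2 : k (h.h y) = y := congrFun h1 y
    rw [← e1, ← e2, hxy]
  have hsurj : Function.Surjective h.h := fun x => ⟨k x, congrFun h2 x⟩
  refine ⟨⟨hinj, hsurj⟩, ?_⟩
  intro c e
  obtain ⟨l, rfl⟩ := T.conn c e
  induction l with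
  | nil =>
    simp only [List.foldr_nil]
    rw [(T.dir_none c c).2 rfl, (T.dir_none (h.h c) (h.h c)).2 rfl]
  | cons j l ih =>
    simp only [List.foldr_cons]
    set e := l.foldr T.r c with he
    by_cases hc : T.r j e = c
    · rw [hc, (T.dir_none c c).2 rfl, (T.dir_none (h.h c) (h.h c)).2 rfl]
    · by_cases hec : e = c
      · rw [hec, h.hr, T.dir_r, T.dir_r]
      · rw [T.dir_step c e j hec hc, h.hr, T.dir_step (h.h c) (h.h e) j
          (fun h' => hec (hinj h')) (fun h' => hc (hinj (by rw [h.hr]; exact h'))), ih]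

end Pool.Agent.H42.BPQ
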