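import Pool.Agent.H55.BQ.Targets

/-!
# Biplanar drawings (MP_bacf0e_co), board `bpq_modules`, row DKE (helper42)

Deck transformations of the tree of half planes exist.
-/

set_option autoImplicit false

open Finset Pool.Agent.H55.BP Pool.Agent.H55.BQ

namespace Pool.Agent.H42.BPQ

theorem hom_foldr {n : ℕ} (T : LT n) (h : T.V → T.V) (hr : ∀ i x, h (T.r i x) = T.r i (h x))
    (c : T.V) (l : List (Fin n)) : h (l.foldr T.r c) = l.foldr T.r (h c) := by
  induction l with
  | nil => rfl
  | cons i l ih => simp only [List.foldr_cons, hr, ih]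

theorem par_foldr {n : ℕ} (T : LT n) (c e : T.V) (hp : T.par c = T.par e) (l : List (Fin n)) :
    T.par (l.foldr T.r c) = T.par (l.foldr T.r e) := by
  induction l with
  | nil => exact hp
  | cons i l ih => simp only [List.foldr_cons, T.par_r, ih]

theorem pf_DKE : T_DKE := by
  intro n T c e hce
  obtain ⟨h, hr, hc⟩ := T.hom c e
  refine ⟨⟨h, hr, ?_⟩, hc⟩
  intro x
  obtain ⟨l, rfl⟩ := T.conn c x
  rw [hom_foldr T h hr c l, hc]
  exact (par_foldr T c e hce l).symm

end Pool.Agent.H42.BPQ
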